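import Pool.Agent.H88.WR.Targets

/-!
# All operators on a space are compact exactly in finite dimension
-/

set_option autoImplicit false

namespace Pool.Agent.H14.WR

open Filter Topology Set Pool.Agent.H85.WMP Pool.Agent.H88.WR

theorem pf_FIN (𝕜 : Type) [RCLike 𝕜] : T_FIN 𝕜 := by
  intro E _ _
  constructor
  · intro h
    obtain ⟨K, hK, hK1⟩ := h (ContinuousLinearMap.id 𝕜 E)
    have h1 : K ∈ 𝓝 (0 : E) := hK1
    obtain ⟨r, hr, hr1⟩ := Metric.nhds_basis_closedBall.mem_iff.1 h1
    exact FiniteDimensional.of_isCompact_closedBall 𝕜 hr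
      (hK.of_isClosed_subset Metric.isClosed_closedBall hr1)
  · intro h T
    have hp : ProperSpace E := FiniteDimensional.proper 𝕜 E
    refine ⟨T '' Metric.closedBall 0 1, (isCompact_closedBall 0 1).image T.continuous, ?_⟩
    exact mem_of_superset (Metric.closedBall_mem_nhds 0 one_pos) (subset_preimage_image T _)

end Pool.Agent.H14.WR
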