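import Pool.Agent.H88.WR.Targets

/-!
# The dual of a Tsirelson type space is infinite-dimensional
-/

set_option autoImplicit false

namespace Pool.Agent.H14.WR

open Filter Topology Set Pool.Agent.H85.WMP Pool.Agent.H88.WR

variable {𝕜 : Type} [RCLike 𝕜]

/-- the coordinate functionals -/
noncomputable def coordD {M : Set (Finset ℕ)} {N : (ℕ →₀ 𝕜) → ℝ} (hN : TN 𝕜 M N)
    (S : Spc 𝕜 N) (i : ℕ) : S.D :=
  LinearMap.mkContinuous ((Finsupp.lapply i : (ℕ →₀ 𝕜) →ₗ[𝕜] 𝕜) ∘ₗ
    (S.e.symm : S.X →ₗ[𝕜] (ℕ →₀ 𝕜))) 1 (fun v => by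
      have h1 := hN.coord (S.e.symm v) i
      have h2 := S.norm_e (S.e.symm v)
      rw [LinearEquiv.apply_symm_apply] at h2
      rw [one_mul, h2]
      exact h1)

theorem coordD_apply {M : Set (Finset ℕ)} {N : (ℕ →₀ 𝕜) → ℝ} (hN : TN 𝕜 M N)
    (S : Spc 𝕜 N) (i : ℕ) (x : ℕ →₀ 𝕜) : coordD hN S i (S.e x) = x i := by
  simp [coordD]

theorem pf_IND (𝕜 : Type) [RCLike 𝕜] : T_IND 𝕜 := by
  intro M N hN S hfd
  have hli : LinearIndependent 𝕜 (fun i : ℕ => coordD hN S i) := by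
    rw [linearIndependent_iff']
    intro s g hg k hk
    have h1 : (∑ i ∈ s, g i • coordD hN S i) (S.e (Finsupp.single k 1)) = 0 := by
      rw [hg]
      rfl
    rw [sum_apply, Finset.sum_eq_single k] at h1
    · rw [smul_apply, coordD_apply, Finsupp.single_eq_same, smul_eq_mul,
        mul_one] at h1
      exact h1
    · intro i _ hik
      rw [smul_apply, coordD_apply, Finsupp.single_eq_of_ne hik, smul_zero]
    · intro h
      exact absurd hk h
  have hfin : Finite ℕ := hli.finite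
  exact not_finite ℕ

end Pool.Agent.H14.WR
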