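import Pool.Agent.H88.WR.Targets

/-!
# Projections of functionals on a Tsirelson type space
-/

set_option autoImplicit false

namespace Pool.Agent.H14.WR

open Filter Topology Set Pool.Agent.H85.WMP Pool.Agent.H88.WR

theorem pf_PRJ (𝕜 : Type) [RCLike 𝕜] : T_PRJ 𝕜 := by
  intro M N hN S b p _
  refine ⟨LinearMap.mkContinuous
    { toFun := fun v => b (S.e ((S.e.symm v).filter p))
      map_add' := fun u v => by
        rw [map_add, Finsupp.filter_add, map_add, map_add]
      map_smul' := fun c v => by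
        rw [map_smul, Finsupp.filter_smul, map_smul, map_smul]
        rfl } ‖b‖ (fun v => ?_), ?_, fun x => ?_⟩
  · have h1 : ‖S.e ((S.e.symm v).filter p)‖ ≤ ‖v‖ := by
      have h2 := S.norm_e (S.e.symm v)
      rw [LinearEquiv.apply_symm_apply] at h2
      rw [S.norm_e, h2]
      exact hN.filter p _
    calc ‖b (S.e ((S.e.symm v).filter p))‖ ≤ ‖b‖ * ‖S.e ((S.e.symm v).filter p)‖ :=
          b.le_opNorm _
      _ ≤ ‖b‖ * ‖v‖ := mul_le_mul_of_nonneg_left h1 (norm_nonneg _)
  · exact LinearMap.mkContinuous_norm_le _ (norm_nonneg _) _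
  · simp

end Pool.Agent.H14.WR
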