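import Pool.Agent.H88.WR.Targets
import Pool.Agent.H55.WM.Main

/-!
# The weak maximizing property and rank one operators
-/

set_option autoImplicit false

namespace Pool.Agent.H14.WR

open Filter Topology Set Pool.Agent.H85.WMP Pool.Agent.H88.WR

theorem pf_R1A (𝕜 : Type) [RCLike 𝕜] : T_R1A 𝕜 := by
  intro E _ _ F _ _ _ hW f
  by_cases hf : f = 0
  · exact ⟨0, by simp, by simp [hf]⟩
  have hf0 : 0 < ‖f‖ := norm_pos_iff.2 hf
  obtain ⟨y0, hy0⟩ := exists_ne (0 : F)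
  have hy0' : ‖y0‖ ≠ 0 := norm_ne_zero_iff.2 hy0
  obtain ⟨y, hy⟩ : ∃ y : F, ‖y‖ = 1 := by
    refine ⟨((‖y0‖⁻¹ : ℝ) : 𝕜) • y0, ?_⟩
    rw [norm_smul, RCLike.norm_ofReal, abs_of_nonneg (inv_nonneg.2 (norm_nonneg _)),
      inv_mul_cancel₀ hy0']
  have hT : ∀ z, ‖f.smulRight y z‖ = ‖f z‖ := fun z => by
    rw [ContinuousLinearMap.smulRight_apply, norm_smul, hy, mul_one]
  have hTn : ‖f.smulRight y‖ = ‖f‖ := by
    rw [ContinuousLinearMap.norm_smulRight_apply, hy, mul_one]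
  have hx : ∀ n : ℕ, ∃ x : E, ‖x‖ = 1 ∧ ‖f‖ * (1 - 1 / ((n : ℝ) + 1)) ≤ ‖f x‖ := by
    intro n
    have h0 : (0 : ℝ) < 1 / ((n : ℝ) + 1) := by positivity
    refine Pool.Agent.H55.WM.exists_norming_vector ?_ ?_
    · have : 1 / ((n : ℝ) + 1) ≤ 1 := by
        rw [div_le_one (by positivity)]
        have : (0 : ℝ) ≤ n := Nat.cast_nonneg n
        linarith
      exact mul_nonneg hf0.le (by linarith)
    · nlinarith
  choose x hx1 hx2 using hx
  have hlim : Tendsto (fun n => ‖f (x n)‖) atTop (𝓝 ‖f‖) := by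
    have h1 : Tendsto (fun n : ℕ => ‖f‖ * (1 - 1 / ((n : ℝ) + 1))) atTop (𝓝 ‖f‖) := by
      have h2 := (tendsto_one_div_add_atTop_nhds_zero_nat (𝕜 := ℝ)).const_sub 1
      have h3 := h2.const_mul ‖f‖
      rwa [sub_zero, mul_one] at h3
    refine tendsto_of_tendsto_of_tendsto_of_le_of_le h1 tendsto_const_nhds hx2 fun n => ?_
    calc ‖f (x n)‖ ≤ ‖f‖ * ‖x n‖ := f.le_opNorm _
      _ = ‖f‖ := by rw [hx1, mul_one]
  obtain ⟨z, hz1, hz2⟩ := hW (f.smulRight y) ⟨x, ⟨hx1, by simpa only [hT, hTn] using hlim⟩,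
    fun hwn => by
      have h1 := (hwn f).norm
      rw [norm_zero] at h1
      exact hf0.ne' (tendsto_nhds_unique hlim h1)⟩
  rw [hT, hTn] at hz2
  exact ⟨z, hz1.le, hz2⟩

end Pool.Agent.H14.WR
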